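import Mathlib
import Pool.Agent.H13R3.PI.Engine

set_option autoImplicit false
set_option maxHeartbeats 4000000

/-! Goldbach representations with the smaller prime in a prescribed range, for almost all members
of a family of nearly minimal energy: the first moment and the conclusion. -/

namespace Pool.Agent.H13R3.PI

open Finset Pool.Agent.H373R2.T7 Pool.Agent.H560R3.GB
open ArithmeticFunction (vonMangoldt)

lemma sum_lp_le (lo : ℕ) : ∑ a ∈ range (lo + 1), lp a ≤ 2 * lo := by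
  have h : ∑ a ∈ range (lo + 1), lp a = Chebyshev.theta (lo : ℝ) := by
    unfold Chebyshev.theta Pool.Agent.H560R3.GB.lp
    rw [Nat.floor_natCast, sum_filter]
    rw [range_eq_Ico, sum_eq_sum_Ico_succ_bot (by omega)]
    simp only [ArithmeticFunction.map_zero, ite_self, zero_add]
    apply sum_congr
    · ext a
      rw [mem_Ico, mem_Ioc]
      omega
    · intro a _
      split_ifs with h
      · exact ArithmeticFunction.vonMangoldt_apply_prime h
      · rfl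
  rw [h]
  refine (Chebyshev.theta_le_log4_mul_x (Nat.cast_nonneg lo)).trans ?_
  apply mul_le_mul_of_nonneg_right _ (Nat.cast_nonneg lo)
  have h4 : Real.log 4 = 2 * Real.log 2 := by
    rw [show (4 : ℝ) = 2 ^ 2 by norm_num, Real.log_pow]
    push_cast; ring
  have := Real.log_two_lt_d9
  linarith

open Classical in
/-- the main term for one member -/
lemma member_low (B1 : ℕ) (hB1 : 2 ≤ B1) : ∃ N0 : ℕ, ∀ N : ℕ, N0 ≤ N → ∀ n z lo A : ℕ, Even n →
    A < n → n ≤ N → (N : ℝ) ≤ A * Real.log N ^ 2 → (lo : ℝ) * Real.log N ≤ 16 * A →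
    Real.log N ^ 2 ≤ z → (z : ℝ) ≤ Real.log N ^ B1 →
    (A : ℝ) / (2 * Real.log N) ≤ ∑ a ∈ Icc 1 N, wt lo A N a * lamzI z ((n : ℤ) - a) := by
  obtain ⟨n0, h0⟩ := sys_main 1 (B1 + 1) 2 le_rfl
  obtain ⟨C₀, hC₀, hV⟩ := Vz_log
  have hlim : ∃ m : ℕ, ∀ N : ℕ, m ≤ N →
      80 * (C₀ * (B1 * Real.log (Real.log N))) ≤ Real.log N := by
    have h1 : (fun x : ℝ => Real.log x) =o[Filter.atTop] (fun x : ℝ => x) := Real.isLittleO_log_id_atTop
    have h2 := h1.bound (show 0 < 1 / (80 * C₀ * B1 + 1) by positivity)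
    have h3 := (Real.tendsto_log_atTop.comp (tendsto_natCast_atTop_atTop (R := ℝ))).eventually h2
    have h4 := (Real.tendsto_log_atTop.comp (tendsto_natCast_atTop_atTop (R := ℝ))).eventually_ge_atTop 1
    obtain ⟨m, hm⟩ := Filter.eventually_atTop.1 (h3.and h4)
    refine ⟨m, fun N hN => ?_⟩
    obtain ⟨h5, h6⟩ := hm N hN
    simp only [Function.comp, Real.norm_eq_abs] at h5 h6
    have h7 : 0 ≤ Real.log (Real.log (N : ℝ)) := Real.log_nonneg h6
    rw [abs_of_nonneg h7, abs_of_nonneg (by linarith : 0 ≤ Real.log (N : ℝ))] at h5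
    have h8 : (80 * C₀ * B1 + 1) * Real.log (Real.log (N : ℝ)) ≤ Real.log N := by
      calc (80 * C₀ * B1 + 1) * Real.log (Real.log (N : ℝ)) ≤
            (80 * C₀ * B1 + 1) * (1 / (80 * C₀ * B1 + 1) * Real.log N) :=
            mul_le_mul_of_nonneg_left h5 (by positivity)
        _ = Real.log N := by field_simp
    nlinarith
  obtain ⟨m1, e1⟩ := hlim
  obtain ⟨m2, e2⟩ := ev_L' (2 ^ (B1 + 2) + 16)
  obtain ⟨m3, e3⟩ := ev_log' 4 (8 + n0)
  refine ⟨m1 + m2 + m3 + 3, fun N hN n z lo A hev hAn hnN hA hlo hz1 hz2 => ?_⟩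
  have a1 := e1 N (by omega)
  have a2 := e2 N (by omega)
  have a3 := e3 N (by omega)
  have hN3 : (3 : ℝ) ≤ N := by exact_mod_cast (by omega : 3 ≤ N)
  have hN0 : (0 : ℝ) < N := by linarith
  set L := Real.log (N : ℝ) with hL
  have hp2 : (0 : ℝ) < 2 ^ (B1 + 2) := by positivity
  have hL16 : 16 ≤ L := by linarith
  have hL0 : 0 < L := by linarith
  have hL1 : 1 ≤ L := by linarith
  have hAN : A ≤ N := by omega
  have hs0 : 0 < √(N : ℝ) := Real.sqrt_pos.2 hN0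
  have hss : √(N : ℝ) * √(N : ℝ) = N := Real.mul_self_sqrt hN0.le
  have hn0' : (0 : ℝ) ≤ n0 := Nat.cast_nonneg _
  -- A is large
  have hL4 : L ^ 4 = L ^ 2 * L ^ 2 := by ring
  have hA1 : √(N : ℝ) * ((8 + n0) * L ^ 2) ≤ A := by
    have h1 : (8 + (n0 : ℝ)) * L ^ 4 * √(N : ℝ) ≤ √(N : ℝ) * √(N : ℝ) :=
      mul_le_mul_of_nonneg_right a3 hs0.le
    rw [hss] at h1
    have h2 : (√(N : ℝ) * ((8 + n0) * L ^ 2)) * L ^ 2 ≤ A * L ^ 2 := by
      calc (√(N : ℝ) * ((8 + n0) * L ^ 2)) * L ^ 2 = (8 + (n0 : ℝ)) * L ^ 4 * √(N : ℝ) := by ring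
        _ ≤ (N : ℝ) := h1
        _ ≤ A * L ^ 2 := hA
    exact le_of_mul_le_mul_right h2 (by positivity)
  have hLsq : 1 ≤ L ^ 2 := one_le_pow₀ hL1
  have hsN : 1 ≤ √(N : ℝ) := by
    rw [Real.one_le_sqrt]; linarith
  have hAs : √(N : ℝ) ≤ A := by
    refine le_trans ?_ hA1
    have : 1 ≤ (8 + (n0 : ℝ)) * L ^ 2 := by nlinarith
    nlinarith
  have hAn0 : (n0 : ℝ) ≤ A := by
    refine le_trans ?_ hA1
    have h1 : (n0 : ℝ) ≤ (8 + (n0 : ℝ)) * L ^ 2 := by nlinarith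
    have h2 : 0 ≤ (8 + (n0 : ℝ)) * L ^ 2 := by positivity
    nlinarith
  have hA0 : (0 : ℝ) < A := by linarith
  have hlA1 : L / 2 ≤ Real.log A := by
    have h5 := Real.log_le_log hs0 hAs
    rwa [Real.log_sqrt hN0.le] at h5
  have hlA2 : Real.log A ≤ L := Real.log_le_log hA0 (by exact_mod_cast hAN)
  set l := Real.log (A : ℝ) with hl
  have hl0 : 0 < l := by linarith
  have hz16 : (3 : ℝ) ≤ z := by nlinarith
  have hz3 : 3 ≤ z := by exact_mod_cast hz16
  have hzl : (z : ℝ) ≤ l ^ (B1 + 1) := by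
    calc (z : ℝ) ≤ L ^ B1 := hz2
      _ ≤ (2 * l) ^ B1 := pow_le_pow_left₀ hL0.le (by linarith) _
      _ = 2 ^ B1 * l ^ B1 := mul_pow _ _ _
      _ ≤ l * l ^ B1 := by
          apply mul_le_mul_of_nonneg_right _ (by positivity)
          have : (2 : ℝ) ^ (B1 + 2) = 4 * 2 ^ B1 := by ring
          have h3 : (0 : ℝ) < 2 ^ B1 := by positivity
          linarith
      _ = l ^ (B1 + 1) := by ring
  have hmain := h0 A (by exact_mod_cast hAn0) z (by omega) hzl (Qg n) (perA n)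
  have hn1 : 1 ≤ n := by omega
  obtain ⟨-, hT1⟩ := sing_close z n L hev hn1
    (Real.log_le_log (by exact_mod_cast hn1) (by exact_mod_cast hnN)) (by linarith) hz1
  have hVz := hV z hz3
  have hVz0 : 0 < (Vz z)⁻¹ := inv_pos.2 (Vz_pos z)
  have hlogz : Real.log z ≤ B1 * Real.log L := by
    have h1 := Real.log_le_log (by linarith : (0 : ℝ) < z) hz2
    rwa [Real.log_pow] at h1
  have hV2 : 80 * (Vz z)⁻¹ ≤ L := by
    have h1 : C₀ * Real.log z ≤ C₀ * (B1 * Real.log L) := mul_le_mul_of_nonneg_left hlogz hC₀.le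
    linarith
  refine le_trans ?_ (main_low n lo A N z hAn hAN L hL hL0)
  set Sm := ∑ a ∈ (Icc 1 A).filter (fun a : ℕ => ∀ p ∈ pz z, ¬ Qg n p a), vonMangoldt a with hSm
  set Pr := ∏ p ∈ pz z, (1 - (rhoA (Qg n) p : ℝ) / (p - 1 : ℝ)) with hPr
  have hTz : Tz z n = (Vz z)⁻¹ * Pr := rfl
  have h5 : (A : ℝ) * Pr - A / l ^ 2 ≤ Sm := by
    have := (abs_le.1 hmain).1
    linarith
  have h6 := sum_lp_le lo
  -- error terms
  have g1 : (A : ℝ) / l ^ 2 ≤ A / (4 * L) := by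
    apply div_le_div_of_nonneg_left hA0.le (by positivity)
    nlinarith
  have g2 : 2 * √(A : ℝ) * l ≤ A / (4 * L) := by
    rw [le_div_iff₀ (by positivity)]
    have h7 : √(A : ℝ) ≤ √(N : ℝ) := Real.sqrt_le_sqrt (by exact_mod_cast hAN)
    calc 2 * √(A : ℝ) * l * (4 * L) ≤ 2 * √(N : ℝ) * L * (4 * L) := by
          apply mul_le_mul_of_nonneg_right _ (by positivity)
          apply mul_le_mul _ hlA2 hl0.le (by positivity)
          linarith
      _ = √(N : ℝ) * (8 * L ^ 2) := by ring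
      _ ≤ √(N : ℝ) * ((8 + n0) * L ^ 2) := by
          apply mul_le_mul_of_nonneg_left _ hs0.le
          apply mul_le_mul_of_nonneg_right _ (by positivity)
          linarith
      _ ≤ A := hA1
  have g3 : 2 * (lo : ℝ) ≤ 32 * A / L := by
    rw [le_div_iff₀ hL0]
    linarith
  have g4 : (Vz z)⁻¹ * (A / l ^ 2 + 2 * √(A : ℝ) * l + ∑ a ∈ range (lo + 1), lp a) ≤ A / 2 := by
    have h7 : A / l ^ 2 + 2 * √(A : ℝ) * l + ∑ a ∈ range (lo + 1), lp a ≤ 40 * A / L := by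
      have h8 : (A : ℝ) / (4 * L) + A / (4 * L) + 32 * A / L ≤ 40 * A / L := by
        have q1 : (A : ℝ) / (4 * L) = (A / L) / 4 := by field_simp
        have q2 : 32 * (A : ℝ) / L = 32 * (A / L) := by ring
        have q3 : 40 * (A : ℝ) / L = 40 * (A / L) := by ring
        have q4 : (0 : ℝ) ≤ A / L := by positivity
        rw [q1, q2, q3]
        linarith
      linarith
    calc (Vz z)⁻¹ * (A / l ^ 2 + 2 * √(A : ℝ) * l + ∑ a ∈ range (lo + 1), lp a) ≤
          (Vz z)⁻¹ * (40 * A / L) := mul_le_mul_of_nonneg_left h7 hVz0.le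
      _ ≤ (L / 80) * (40 * A / L) := by
          apply mul_le_mul_of_nonneg_right _ (by positivity)
          linarith
      _ = A / 2 := by field_simp; ring
  have g5 : (A : ℝ) / 2 ≤ (Vz z)⁻¹ * (Sm - 2 * √(A : ℝ) * l - ∑ a ∈ range (lo + 1), lp a) := by
    have h7 : (Vz z)⁻¹ * (A * Pr - A / l ^ 2 - 2 * √(A : ℝ) * l - ∑ a ∈ range (lo + 1), lp a) ≤
        (Vz z)⁻¹ * (Sm - 2 * √(A : ℝ) * l - ∑ a ∈ range (lo + 1), lp a) := by
      apply mul_le_mul_of_nonneg_left _ hVz0.le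
      linarith
    refine le_trans ?_ h7
    have h8 : (Vz z)⁻¹ * (A * Pr - A / l ^ 2 - 2 * √(A : ℝ) * l - ∑ a ∈ range (lo + 1), lp a) =
        A * Tz z n - (Vz z)⁻¹ * (A / l ^ 2 + 2 * √(A : ℝ) * l + ∑ a ∈ range (lo + 1), lp a) := by
      rw [hTz]; ring
    rw [h8]
    have h9 : (A : ℝ) * 1 ≤ A * Tz z n := mul_le_mul_of_nonneg_left hT1 hA0.le
    linarith
  calc (A : ℝ) / (2 * L) = (A / 2) / L := by field_simp
    _ ≤ ((Vz z)⁻¹ * (Sm - 2 * √(A : ℝ) * l - ∑ a ∈ range (lo + 1), lp a)) / L :=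
        div_le_div_of_nonneg_right g5 hL0.le
    _ = _ := by ring

/-- The engine: for every range `[lo, A]` with `A ≥ N / (log N)^2` and `lo ≤ 16 A / log N`, almost
all members `n > A` of a family of even integers of nearly minimal energy have many
representations `n = p + q` with `p ∈ [lo, A]`. -/
theorem engine (h C U : ℕ) : ∃ N₀ : ℕ, ∀ N : ℕ, N₀ ≤ N → ∀ lo A : ℕ, (N : ℝ) ≤ A * Real.log N ^ 2 →
    (lo : ℝ) * Real.log N ≤ 16 * A → ∀ (x : ℕ) (s : ℕ → ℕ),
      (∀ m ∈ Icc 1 x, Even (s m) ∧ A < s m ∧ s m ≤ N) →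
      (Pool.Agent.H373R2.T7.energy h x (fun m => (s m : ℤ)) : ℝ) * N ≤ Real.log N ^ C * (x : ℝ) ^ (2 * h) →
      ∃ S : Finset ℕ, (S.card : ℝ) ≤ x / Real.log N ^ U ∧ ∀ m ∈ Icc 1 x, m ∉ S →
        (A : ℝ) / (4 * Real.log N ^ 2) ≤
          ((Icc lo A).filter (fun p => p.Prime ∧ (s m - p).Prime)).card := by
  classical
  obtain ⟨B0, hB0⟩ := gold_w h C (4 + U)
  set B1 : ℕ := max B0 2 with hB1
  obtain ⟨n1, h1⟩ := hB0 (B1 + 1)
  obtain ⟨n2, h2⟩ := member_low (B1 + 1) (by have := le_max_right B0 2; omega)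
  obtain ⟨n3, h3⟩ := ev_L' 24
  obtain ⟨n4, h4⟩ := ev_log' 5 48
  refine ⟨n1 + n2 + n3 + n4 + 3, fun N hN lo A hA hlo x s hs hE => ?_⟩
  have hL24 := h3 N (by omega)
  have hL5 := h4 N (by omega)
  have hN3 : (3 : ℝ) ≤ N := by exact_mod_cast (by omega : 3 ≤ N)
  have hN0 : (0 : ℝ) < N := by linarith
  set L := Real.log (N : ℝ) with hLd
  have hL1 : 1 ≤ L := by linarith
  have hL0 : 0 < L := by linarith
  have hs0 : 0 < √(N : ℝ) := Real.sqrt_pos.2 hN0
  have hss : √(N : ℝ) * √(N : ℝ) = N := Real.mul_self_sqrt hN0.le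
  obtain ⟨z, hz⟩ : ∃ z, z = ⌈L ^ B1⌉₊ := ⟨_, rfl⟩
  have hz1 : L ^ B1 ≤ z := by rw [hz]; exact Nat.le_ceil _
  have hz2 : (z : ℝ) ≤ L ^ (B1 + 1) := by
    have h5 : (z : ℝ) < L ^ B1 + 1 := by rw [hz]; exact Nat.ceil_lt_add_one (by positivity)
    have h6 : 1 ≤ L ^ B1 := one_le_pow₀ hL1
    calc (z : ℝ) ≤ L ^ B1 + 1 := h5.le
      _ ≤ L ^ B1 * 2 := by linarith
      _ ≤ L ^ B1 * L := mul_le_mul_of_nonneg_left (by linarith) (by positivity)
      _ = L ^ (B1 + 1) := by rw [pow_succ]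
  have hzB0 : L ^ B0 ≤ z := (pow_le_pow_right₀ hL1 (le_max_left _ _)).trans hz1
  have hz22 : L ^ 2 ≤ z := (pow_le_pow_right₀ hL1 (le_max_right _ _)).trans hz1
  rcases Nat.eq_zero_or_pos x with hx | hx
  · subst hx
    exact ⟨∅, by simp, fun m hm => by simp at hm⟩
  have hAN : A ≤ N := by
    have := hs 1 (mem_Icc.2 ⟨le_rfl, hx⟩)
    omega
  have hmom := h1 N (by omega) x s (fun m hm => ⟨by have := (hs m hm).2.1; omega, (hs m hm).2.2⟩) hE z
    hzB0 hz2 (wt lo A N) (fun a => by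
      rw [abs_of_nonneg (wt_nonneg lo A N a hL0.le)]
      exact wt_le lo A N a hL0 hAN)
  set τ : ℝ := N / L ^ 4 with hτ
  have hτ0 : 0 < τ := by positivity
  set D : ℕ → ℝ := fun m => ∑ a ∈ Icc 1 N, wt lo A N a * (lamI ((s m : ℤ) - a) - lamzI z ((s m : ℤ) - a)) with hD
  set S2 : Finset ℕ := (Icc 1 x).filter (fun m => τ < |D m|) with hS2
  refine ⟨S2, ?_, ?_⟩
  · have h5 : (S2.card : ℝ) * τ ≤ ∑ m ∈ Icc 1 x, |D m| := by
      calc (S2.card : ℝ) * τ = ∑ _m ∈ S2, τ := by rw [sum_const, nsmul_eq_mul]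
        _ ≤ ∑ m ∈ S2, |D m| := sum_le_sum fun m hm => (mem_filter.1 hm).2.le
        _ ≤ _ := sum_le_sum_of_subset_of_nonneg (filter_subset _ _) fun _ _ _ => abs_nonneg _
    have h6 := h5.trans hmom
    rw [← le_div_iff₀ hτ0] at h6
    refine h6.trans (le_of_eq ?_)
    rw [hτ, pow_add L 4 U]
    field_simp
  · intro m hm hmS
    obtain ⟨hev, hAm, hmN⟩ := hs m hm
    have h6 : |D m| ≤ τ := by
      by_contra hcon
      exact hmS (mem_filter.2 ⟨hm, lt_of_not_ge hcon⟩)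
    have h7 := h2 N (by omega) (s m) z lo A hev hAm hmN hA hlo hz22 hz2
    have h8 := count_low (s m) lo A N hAm hmN L hLd hL0
    have h9 : D m = ∑ a ∈ Icc 1 N, wt lo A N a * lamI ((s m : ℤ) - a) -
        ∑ a ∈ Icc 1 N, wt lo A N a * lamzI z ((s m : ℤ) - a) := by
      rw [hD, ← sum_sub_distrib]
      apply sum_congr rfl
      intro a _
      ring
    have h10 := (abs_le.1 h6).1
    set c : ℝ := (((Icc lo A).filter (fun p => p.Prime ∧ (s m - p).Prime)).card : ℝ) with hc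
    have h11 : (A : ℝ) / (2 * L) - τ - 2 * √(N : ℝ) * L ≤ L * c := by linarith
    have hA0 : (0 : ℝ) < A := by
      by_contra hcon
      have h13 : (A : ℝ) * L ^ 2 ≤ 0 := mul_nonpos_of_nonpos_of_nonneg (not_lt.1 hcon) (by positivity)
      linarith
    have hL2 : 0 < L ^ 2 := by positivity
    have k1 : τ ≤ A / (24 * L) := by
      rw [hτ, div_le_div_iff₀ (by positivity) (by positivity)]
      calc (N : ℝ) * (24 * L) ≤ (A * L ^ 2) * (L * L) := by
            apply mul_le_mul hA _ (by positivity) (by positivity)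
            apply mul_le_mul_of_nonneg_right hL24 hL0.le
        _ = A * L ^ 4 := by ring
    have k2 : 2 * √(N : ℝ) * L ≤ A / (24 * L) := by
      rw [le_div_iff₀ (by positivity)]
      have h12 : 48 * L ^ 5 * √(N : ℝ) ≤ N := by
        calc 48 * L ^ 5 * √(N : ℝ) ≤ √(N : ℝ) * √(N : ℝ) := mul_le_mul_of_nonneg_right hL5 hs0.le
          _ = (N : ℝ) := hss
      have h13 : (48 * √(N : ℝ) * L ^ 2) * L ^ 2 ≤ A * L ^ 2 := by
        calc (48 * √(N : ℝ) * L ^ 2) * L ^ 2 = 48 * L ^ 4 * √(N : ℝ) := by ring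
          _ ≤ 48 * L ^ 5 * √(N : ℝ) := by
              apply mul_le_mul_of_nonneg_right _ hs0.le
              apply mul_le_mul_of_nonneg_left _ (by norm_num)
              exact pow_le_pow_right₀ hL1 (by norm_num)
          _ ≤ (N : ℝ) := h12
          _ ≤ A * L ^ 2 := hA
      have h14 := le_of_mul_le_mul_right h13 hL2
      calc 2 * √(N : ℝ) * L * (24 * L) = 48 * √(N : ℝ) * L ^ 2 := by ring
        _ ≤ A := h14
    have k3 : (A : ℝ) / (4 * L) ≤ L * c := by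
      have h15 : (A : ℝ) / (4 * L) = A / (2 * L) - A / (24 * L) - A / (24 * L) - A / (6 * L) := by
        field_simp; ring
      have h16 : 0 ≤ (A : ℝ) / (6 * L) := by positivity
      linarith
    rw [div_le_iff₀ (by positivity)] at k3 ⊢
    calc (A : ℝ) ≤ L * c * (4 * L) := k3
      _ = c * (4 * L ^ 2) := by ring

end Pool.Agent.H13R3.PI
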