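import Mathlib
import Pool.Agent.H13R3.PI.Engine

set_option autoImplicit false
set_option maxHeartbeats 4000000

/-! Representations `n = p + 2q` with `q` in every interval, for almost all members of a family of
odd numbers of nearly minimal energy. -/

namespace Pool.Agent.H13R3.PI

open Finset Pool.Agent.H373R2.T7 Pool.Agent.H560R3.GB
open ArithmeticFunction (vonMangoldt)

/-- the condition on `a` modulo `p` -/
def Ql (n p a : ℕ) : Prop := (p : ℤ) ∣ (n : ℤ) - 2 * a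

lemma rhoL_le (n p : ℕ) (hp : p.Prime) (hn : ¬ 2 ∣ n) : rhoA (Ql n) p ≤ rhoA (Qg (2 * n)) p := by
  classical
  rw [rho_eq (2 * n) p hp]
  split_ifs with h
  · apply le_of_eq
    unfold rhoA
    rw [card_eq_zero, filter_eq_empty_iff]
    intro r _ hr
    have hr2 : (p : ℤ) ∣ (n : ℤ) - 2 * r := hr.2
    rcases (Nat.Prime.dvd_mul hp).1 h with h2 | h2
    · have hp2 : p = 2 := (Nat.prime_dvd_prime_iff_eq hp Nat.prime_two).1 h2
      rw [hp2] at hr2
      apply hn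
      have h3 : (2 : ℤ) ∣ (n : ℤ) := by
        have h4 : (2 : ℤ) ∣ 2 * (r : ℤ) := dvd_mul_right _ _
        have h5 := dvd_add hr2 h4
        simpa using h5
      exact_mod_cast h3
    · have h1 : (p : ℤ) ∣ (n : ℤ) := by exact_mod_cast h2
      have h3 : (p : ℤ) ∣ 2 * (r : ℤ) := by
        have := dvd_sub h1 hr2
        simpa using this
      have h4 : p ∣ 2 * r := by exact_mod_cast h3
      rcases (Nat.Prime.dvd_mul hp).1 h4 with h5 | h5
      · have hp2 : p = 2 := (Nat.prime_dvd_prime_iff_eq hp Nat.prime_two).1 h5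
        exact hn (hp2 ▸ h2)
      · exact hr.1 h5
  · unfold rhoA
    rw [card_le_one]
    intro r hr t ht
    rw [mem_filter, mem_range] at hr ht
    have hr2 : (p : ℤ) ∣ (n : ℤ) - 2 * r := hr.2.2
    have ht2 : (p : ℤ) ∣ (n : ℤ) - 2 * t := ht.2.2
    have h1 : (p : ℤ) ∣ 2 * ((t : ℤ) - r) := by
      have := dvd_sub hr2 ht2
      have e : (n : ℤ) - 2 * r - ((n : ℤ) - 2 * t) = 2 * ((t : ℤ) - r) := by ring
      rwa [e] at this
    have hpi : Prime (p : ℤ) := Nat.prime_iff_prime_int.1 hp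
    rcases hpi.dvd_or_dvd h1 with h2 | h2
    · exfalso
      apply h
      have h3 : p ∣ 2 := by exact_mod_cast h2
      exact h3.mul_right n
    · have h3 : (t : ℤ) - r = 0 := by
        apply Int.eq_zero_of_abs_lt_dvd h2
        rw [abs_lt]
        constructor <;> omega
      omega

lemma perL (n : ℕ) (hn : ¬ 2 ∣ n) : PerA (Ql n) 1 := by
  constructor
  · intro p a
    unfold Ql
    have h1 := Nat.mod_add_div a p
    have h2 : (a : ℤ) = ((a % p : ℕ) : ℤ) + p * ((a / p : ℕ) : ℤ) := by exact_mod_cast h1.symm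
    have h3 : (n : ℤ) - 2 * a = ((n : ℤ) - 2 * ((a % p : ℕ) : ℤ)) - p * (2 * ((a / p : ℕ) : ℤ)) := by linarith
    rw [h3]
    exact (dvd_sub_left (dvd_mul_right _ _))
  · intro p hp
    refine (rhoL_le n p hp hn).trans ?_
    rw [rho_eq (2 * n) p hp]
    split_ifs <;> omega

lemma prL_ge (n z : ℕ) (hn : ¬ 2 ∣ n) : ∏ p ∈ pz z, (1 - (rhoA (Qg (2 * n)) p : ℝ) / (p - 1 : ℝ)) ≤
    ∏ p ∈ pz z, (1 - (rhoA (Ql n) p : ℝ) / (p - 1 : ℝ)) := by
  apply prod_le_prod
  · intro p hp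
    have hpp : p.Prime := (mem_filter.1 hp).2
    have h1 := rhoA_le (Qg (2 * n)) p
    have h2 := hpp.two_le
    have h3 : (rhoA (Qg (2 * n)) p : ℝ) ≤ (p : ℝ) - 1 := by
      have : ((rhoA (Qg (2 * n)) p : ℕ) : ℝ) ≤ ((p - 1 : ℕ) : ℝ) := by exact_mod_cast h1
      rwa [Nat.cast_sub (by omega), Nat.cast_one] at this
    have h4 : (2 : ℝ) ≤ p := by exact_mod_cast h2
    have h5 : (rhoA (Qg (2 * n)) p : ℝ) / (p - 1 : ℝ) ≤ 1 := by
      rw [div_le_one (by linarith)]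
      exact h3
    linarith
  · intro p hp
    have hpp : p.Prime := (mem_filter.1 hp).2
    have h4 : (2 : ℝ) ≤ p := by exact_mod_cast hpp.two_le
    have h5 : (rhoA (Ql n) p : ℝ) ≤ rhoA (Qg (2 * n)) p := by exact_mod_cast rhoL_le n p hpp hn
    have h6 : (rhoA (Ql n) p : ℝ) / (p - 1 : ℝ) ≤ (rhoA (Qg (2 * n)) p : ℝ) / (p - 1 : ℝ) :=
      div_le_div_of_nonneg_right h5 (by linarith)
    linarith

/-- the weight on even numbers -/
noncomputable def wl (lo A N : ℕ) (b : ℕ) : ℝ := if 2 ∣ b then wt lo A N (b / 2) else 0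

lemma wl_nonneg (lo A N a : ℕ) (hN : 0 ≤ Real.log N) : 0 ≤ wl lo A N a := by
  unfold wl
  split_ifs
  · exact wt_nonneg _ _ _ _ hN
  · exact le_rfl

lemma wl_le (lo A N a : ℕ) (hN : 0 < Real.log N) (hA : A ≤ N) : wl lo A N a ≤ 1 := by
  unfold wl
  split_ifs with h
  · exact wt_le _ _ _ _ hN hA
  · exact zero_le_one

lemma wl_sum (lo A N : ℕ) (hlo : 1 ≤ lo) (hA : 2 * A ≤ N) (g : ℕ → ℝ) :
    ∑ b ∈ Icc 1 N, wl lo A N b * g b = ∑ a ∈ Icc 1 A, wt lo A N a * g (2 * a) := by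
  classical
  have h1 : ∑ a ∈ Icc 1 A, wt lo A N a * g (2 * a) =
      ∑ b ∈ (Icc 1 A).image (fun a => 2 * a), wl lo A N b * g b := by
    rw [sum_image (by intro a _ b _ hab; simp only at hab; omega)]
    apply sum_congr rfl
    intro a _
    unfold wl
    rw [if_pos (dvd_mul_right 2 a), Nat.mul_div_cancel_left a (by norm_num)]
  rw [h1]
  symm
  apply sum_subset
  · intro b hb
    rw [mem_image] at hb
    obtain ⟨a, ha, rfl⟩ := hb
    rw [mem_Icc] at ha ⊢
    omega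
  · intro b hb hnb
    unfold wl wt
    split_ifs with h2 h3
    · exfalso
      apply hnb
      rw [mem_image]
      obtain ⟨c, rfl⟩ := h2
      rw [Nat.mul_div_cancel_left c (by norm_num)] at h3
      exact ⟨c, by rw [mem_Icc]; omega, rfl⟩
    · rw [zero_mul]
    · rw [zero_mul]

open Classical in
/-- the main term of the model for an interval, from below -/
lemma main_intL (n B A N z : ℕ) (_hBA : B ≤ A) (hA0 : 1 ≤ A) (hAn : 2 * A < n) (hAN : 2 * A ≤ N) (L : ℝ)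
    (hL : L = Real.log N) (hL0 : 0 < L) :
    (Vz z)⁻¹ / L * (∑ a ∈ (Icc 1 A).filter (fun a : ℕ => ∀ p ∈ pz z, ¬ Ql n p a), vonMangoldt a -
      ∑ a ∈ (Icc 1 B).filter (fun a : ℕ => ∀ p ∈ pz z, ¬ Ql n p a), vonMangoldt a -
      2 * √(A : ℝ) * Real.log A) ≤
      ∑ a ∈ Icc 1 N, wl (B + 1) A N a * lamzI z ((n : ℤ) - a) := by
  classical
  have hV : 0 < (Vz z)⁻¹ := inv_pos.2 (Vz_pos z)
  have e1 : ∑ a ∈ Icc 1 N, wl (B + 1) A N a * lamzI z ((n : ℤ) - a) =
      (Vz z)⁻¹ / L * ∑ a ∈ (Icc 1 A).filter (fun a : ℕ => ∀ p ∈ pz z, ¬ Ql n p a),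
        (if B + 1 ≤ a then lp a else 0) := by
    rw [wl_sum (B + 1) A N (by omega) hAN (fun b => lamzI z ((n : ℤ) - b)), mul_sum, sum_filter]
    apply sum_congr rfl
    intro a ha
    rw [mem_Icc] at ha
    have h1 : (1 : ℤ) ≤ (n : ℤ) - ((2 * a : ℕ) : ℤ) := by push_cast; omega
    have h2 : ((n : ℤ) - ((2 * a : ℕ) : ℤ)).toNat = n - 2 * a := by push_cast; omega
    have hiff : (∀ p ∈ pz z, ¬ p ∣ (n - 2 * a)) ↔ (∀ p ∈ pz z, ¬ Ql n p a) := by
      have : ∀ p : ℕ, p ∣ (n - 2 * a) ↔ Ql n p a := by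
        intro p
        unfold Ql
        rw [← Int.natCast_dvd_natCast, Nat.cast_sub (by omega)]
        push_cast
        exact Iff.rfl
      simp only [this]
    unfold wt lamzI lamz
    rw [if_pos h1, h2, ← hL]
    by_cases hc : ∀ p ∈ pz z, ¬ p ∣ (n - 2 * a)
    · rw [if_pos hc, if_pos (hiff.1 hc)]
      by_cases hlo : B + 1 ≤ a
      · rw [if_pos ⟨hlo, ha.2⟩, if_pos hlo]
        ring
      · rw [if_neg (fun h => hlo h.1), if_neg hlo]
        ring
    · rw [if_neg hc, if_neg (fun h => hc (hiff.2 h)), mul_zero]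
  rw [e1]
  apply mul_le_mul_of_nonneg_left _ (div_nonneg hV.le hL0.le)
  set F : Finset ℕ := (Icc 1 A).filter (fun a : ℕ => ∀ p ∈ pz z, ¬ Ql n p a) with hF
  set G : Finset ℕ := (Icc 1 B).filter (fun a : ℕ => ∀ p ∈ pz z, ¬ Ql n p a) with hG
  have h1 : ∑ a ∈ F, (vonMangoldt a - lp a) ≤ 2 * √(A : ℝ) * Real.log A := by
    refine le_trans ?_ (sum_pp A hA0)
    apply sum_le_sum_of_subset_of_nonneg
    · intro a ha
      rw [hF, mem_filter, mem_Icc] at ha
      rw [mem_range]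
      omega
    · intro a _ _
      linarith [lp_le a]
  have h2 : ∑ a ∈ F, (if B + 1 ≤ a then 0 else lp a) ≤ ∑ a ∈ G, vonMangoldt a := by
    have h2' : ∑ a ∈ F, (if B + 1 ≤ a then 0 else lp a) = ∑ a ∈ F.filter (fun a => ¬ B + 1 ≤ a), lp a := by
      rw [sum_filter (fun a => ¬ B + 1 ≤ a) (fun a => lp a)]
      apply sum_congr rfl
      intro a _
      by_cases hlo : B + 1 ≤ a
      · rw [if_pos hlo, if_neg (not_not.2 hlo)]
      · rw [if_neg hlo, if_pos hlo]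
    rw [h2']
    calc ∑ a ∈ F.filter (fun a => ¬ B + 1 ≤ a), lp a ≤ ∑ a ∈ G, lp a := by
          apply sum_le_sum_of_subset_of_nonneg
          · intro a ha
            rw [mem_filter, hF, mem_filter, mem_Icc] at ha
            rw [hG, mem_filter, mem_Icc]
            exact ⟨⟨ha.1.1.1, by omega⟩, ha.1.2⟩
          · intro a _ _
            exact lp_nonneg a
      _ ≤ _ := sum_le_sum fun a _ => lp_le a
  have h3 : ∑ a ∈ F, vonMangoldt a = ∑ a ∈ F, (vonMangoldt a - lp a) +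
      (∑ a ∈ F, (if B + 1 ≤ a then 0 else lp a) + ∑ a ∈ F, (if B + 1 ≤ a then lp a else 0)) := by
    rw [← sum_add_distrib, ← sum_add_distrib]
    apply sum_congr rfl
    intro a _
    by_cases hlo : B + 1 ≤ a
    · rw [if_pos hlo, if_pos hlo]; ring
    · rw [if_neg hlo, if_neg hlo]; ring
  linarith

open Classical in
/-- the main term for one member and one interval -/
lemma member_intL (B1 K : ℕ) : ∃ N0 : ℕ, ∀ N : ℕ, N0 ≤ N → ∀ n z i Δ : ℕ, ¬ 2 ∣ n →
    2 * ((i + 1) * Δ) < n → n ≤ N → (N : ℝ) ≤ 5 * (Δ * Real.log N ^ K) →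
    Real.log N ^ 3 ≤ z → (z : ℝ) ≤ Real.log N ^ B1 →
    (Δ : ℝ) / (2 * Real.log N) ≤
      ∑ a ∈ Icc 1 N, wl (i * Δ + 1) ((i + 1) * Δ) N a * lamzI z ((n : ℤ) - a) := by
  obtain ⟨n0, h0⟩ := sys_main 1 (B1 + 1) (K + 3) le_rfl
  obtain ⟨m1, e1⟩ := Vz_inv_small B1
  obtain ⟨m2, e2⟩ := ev_L' (2 ^ (B1 + 2) + 40 * 2 ^ (K + 3) + 16)
  obtain ⟨m3, e3⟩ := ev_log' (K + 2) (40 + 5 * n0)
  refine ⟨m1 + m2 + m3 + 3, fun N hN n z i Δ hev hAn hnN hΔ hz1 hz2 => ?_⟩
  have a2 := e2 N (by omega)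
  have a3 := e3 N (by omega)
  have hN3 : (3 : ℝ) ≤ N := by exact_mod_cast (by omega : 3 ≤ N)
  have hN0 : (0 : ℝ) < N := by linarith
  set L := Real.log (N : ℝ) with hL
  have hp2 : (0 : ℝ) < 2 ^ (B1 + 2) := by positivity
  have hp3 : (0 : ℝ) < 2 ^ (K + 3) := by positivity
  have hL16 : 16 ≤ L := by linarith
  have hL0 : 0 < L := by linarith
  have hL1 : 1 ≤ L := by linarith
  set A := (i + 1) * Δ with hA
  set B := i * Δ with hB
  have hABΔ : A = B + Δ := by rw [hA, hB]; ring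
  have hAN : A ≤ N := by omega
  have hAN2 : 2 * A ≤ N := by omega
  have hs0 : 0 < √(N : ℝ) := Real.sqrt_pos.2 hN0
  have hss : √(N : ℝ) * √(N : ℝ) = N := Real.mul_self_sqrt hN0.le
  have hn0' : (0 : ℝ) ≤ n0 := Nat.cast_nonneg _
  have hLK0 : 0 < L ^ K := by positivity
  have hLK1 : 1 ≤ L ^ K := one_le_pow₀ hL1
  -- Δ is large
  have hD1 : √(N : ℝ) * ((8 + n0) * L ^ 2) ≤ Δ := by
    have h1 : (40 + 5 * (n0 : ℝ)) * L ^ (K + 2) * √(N : ℝ) ≤ N := by
      calc (40 + 5 * (n0 : ℝ)) * L ^ (K + 2) * √(N : ℝ) ≤ √(N : ℝ) * √(N : ℝ) :=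
            mul_le_mul_of_nonneg_right a3 hs0.le
        _ = (N : ℝ) := hss
    have h2 : (√(N : ℝ) * ((8 + n0) * L ^ 2)) * (5 * L ^ K) ≤ Δ * (5 * L ^ K) := by
      calc (√(N : ℝ) * ((8 + n0) * L ^ 2)) * (5 * L ^ K) =
            (40 + 5 * (n0 : ℝ)) * L ^ (K + 2) * √(N : ℝ) := by rw [pow_add]; ring
        _ ≤ (N : ℝ) := h1
        _ ≤ 5 * (Δ * L ^ K) := hΔ
        _ = Δ * (5 * L ^ K) := by ring
    exact le_of_mul_le_mul_right h2 (by positivity)
  have hLsq : 1 ≤ L ^ 2 := one_le_pow₀ hL1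
  have hsN : 1 ≤ √(N : ℝ) := by
    rw [Real.one_le_sqrt]; linarith
  have hq1 : 1 ≤ (8 + (n0 : ℝ)) * L ^ 2 := by nlinarith
  have hDs : √(N : ℝ) ≤ Δ := by
    refine le_trans ?_ hD1
    nlinarith
  have hDn0 : (n0 : ℝ) ≤ Δ := by
    refine le_trans ?_ hD1
    have h1 : (n0 : ℝ) ≤ (8 + (n0 : ℝ)) * L ^ 2 := by nlinarith
    nlinarith
  have hD0 : (0 : ℝ) < Δ := by linarith
  have hD0' : 0 < Δ := by exact_mod_cast hD0
  have hz44 : (2 * L) ^ 2 ≤ z := by
    refine le_trans ?_ hz1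
    have : (2 * L) ^ 2 = 4 * L ^ 2 := by ring
    rw [this, pow_succ L 2]
    nlinarith
  have hz16 : (1 : ℝ) ≤ z := by nlinarith
  have hz3 : 1 ≤ z := by exact_mod_cast hz16
  have hn1 : 1 ≤ n := by omega
  have hn1r : (1 : ℝ) ≤ n := by exact_mod_cast hn1
  have hlog2 : Real.log ((2 * n : ℕ) : ℝ) ≤ 2 * L := by
    have h5 : Real.log (n : ℝ) ≤ L := Real.log_le_log (by linarith) (by exact_mod_cast hnN)
    have h6 : ((2 * n : ℕ) : ℝ) = 2 * (n : ℝ) := by push_cast; ring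
    rw [h6, Real.log_mul (by norm_num) (by linarith)]
    have := Real.log_two_lt_d9
    linarith
  obtain ⟨-, hT1⟩ := sing_close z (2 * n) (2 * L) (even_two_mul n) (by omega) hlog2 (by linarith) hz44
  have hVz := e1 N (by omega) z hz3 hz2
  have hVz0 : 0 < (Vz z)⁻¹ := inv_pos.2 (Vz_pos z)
  set Pr := ∏ p ∈ pz z, (1 - (rhoA (Ql n) p : ℝ) / (p - 1 : ℝ)) with hPr
  have hTz : 1 ≤ (Vz z)⁻¹ * Pr := by
    refine hT1.trans ?_
    unfold Tz
    exact mul_le_mul_of_nonneg_left (prL_ge n z hev) hVz0.le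
  -- the sum up to Y
  have hY : ∀ Y : ℕ, (Y = 0 ∨ Δ ≤ Y) → Y ≤ N →
      |∑ a ∈ (Icc 1 Y).filter (fun a : ℕ => ∀ p ∈ pz z, ¬ Ql n p a), vonMangoldt a - Y * Pr| ≤
        2 ^ (K + 3) * N / L ^ (K + 3) := by
    rintro Y (hY0 | hYΔ) hYN
    · subst hY0
      simp
      positivity
    · have hYs : √(N : ℝ) ≤ Y := hDs.trans (by exact_mod_cast hYΔ)
      have hl1 : L / 2 ≤ Real.log Y := by
        have h5 := Real.log_le_log hs0 hYs
        rwa [Real.log_sqrt hN0.le] at h5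
      have hl0 : 0 < Real.log (Y : ℝ) := by linarith
      have hzl : (z : ℝ) ≤ Real.log Y ^ (B1 + 1) := by
        calc (z : ℝ) ≤ L ^ B1 := hz2
          _ ≤ (2 * Real.log Y) ^ B1 := pow_le_pow_left₀ hL0.le (by linarith) _
          _ = 2 ^ B1 * Real.log Y ^ B1 := mul_pow _ _ _
          _ ≤ Real.log Y * Real.log Y ^ B1 := by
              apply mul_le_mul_of_nonneg_right _ (by positivity)
              have : (2 : ℝ) ^ (B1 + 2) = 4 * 2 ^ B1 := by ring
              have h3 : (0 : ℝ) < 2 ^ B1 := by positivity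
              linarith
          _ = Real.log Y ^ (B1 + 1) := by ring
      have hYn0 : n0 ≤ Y := by
        have : (n0 : ℝ) ≤ Y := hDn0.trans (by exact_mod_cast hYΔ)
        exact_mod_cast this
      refine (h0 Y hYn0 z hz3 hzl (Ql n) (perL n hev)).trans ?_
      rw [div_le_div_iff₀ (by positivity) (by positivity)]
      have h6 : L ^ (K + 3) ≤ 2 ^ (K + 3) * Real.log Y ^ (K + 3) := by
        rw [← mul_pow]
        exact pow_le_pow_left₀ hL0.le (by linarith) _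
      calc (Y : ℝ) * L ^ (K + 3) ≤ N * (2 ^ (K + 3) * Real.log Y ^ (K + 3)) := by
            apply mul_le_mul (by exact_mod_cast hYN) h6 (by positivity) hN0.le
        _ = _ := by ring
  have hYA := hY A (Or.inr (by omega)) hAN
  have hYB := hY B (by
    rcases Nat.eq_zero_or_pos i with h | h
    · left; rw [hB, h, zero_mul]
    · right; rw [hB]; exact Nat.le_mul_of_pos_left _ h) (by omega)
  refine le_trans ?_ (main_intL n B A N z (by omega) (by omega) hAn hAN2 L hL hL0)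
  set SA := ∑ a ∈ (Icc 1 A).filter (fun a : ℕ => ∀ p ∈ pz z, ¬ Ql n p a), vonMangoldt a with hSA
  set SB := ∑ a ∈ (Icc 1 B).filter (fun a : ℕ => ∀ p ∈ pz z, ¬ Ql n p a), vonMangoldt a with hSB
  set ER := 2 ^ (K + 3) * (N : ℝ) / L ^ (K + 3) with hER
  have h5 : (Δ : ℝ) * Pr - 2 * ER ≤ SA - SB := by
    have q1 := (abs_le.1 hYA).1
    have q2 := (abs_le.1 hYB).2
    have q3 : (A : ℝ) = B + Δ := by exact_mod_cast hABΔ
    rw [q3] at q1
    linarith
  have hA0 : (0 : ℝ) < A := by exact_mod_cast (by omega : 0 < A)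
  have hlA2 : Real.log A ≤ L := Real.log_le_log hA0 (by exact_mod_cast hAN)
  have hlA0 : 0 ≤ Real.log (A : ℝ) := Real.log_nonneg (by exact_mod_cast (by omega : 1 ≤ A))
  have g2 : 2 * √(A : ℝ) * Real.log A ≤ Δ / (4 * L) := by
    rw [le_div_iff₀ (by positivity)]
    have h7 : √(A : ℝ) ≤ √(N : ℝ) := Real.sqrt_le_sqrt (by exact_mod_cast hAN)
    calc 2 * √(A : ℝ) * Real.log A * (4 * L) ≤ 2 * √(N : ℝ) * L * (4 * L) := by
          apply mul_le_mul_of_nonneg_right _ (by positivity)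
          apply mul_le_mul _ hlA2 hlA0 (by positivity)
          linarith
      _ = √(N : ℝ) * (8 * L ^ 2) := by ring
      _ ≤ √(N : ℝ) * ((8 + n0) * L ^ 2) := by
          apply mul_le_mul_of_nonneg_left _ hs0.le
          apply mul_le_mul_of_nonneg_right _ (by positivity)
          linarith
      _ ≤ Δ := hD1
  have g1 : 2 * ER ≤ Δ / (4 * L) := by
    rw [hER, le_div_iff₀ (by positivity)]
    have e : 2 * (2 ^ (K + 3) * (N : ℝ) / L ^ (K + 3)) * (4 * L) =
        8 * 2 ^ (K + 3) * N / (L ^ K * L ^ 2) := by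
      rw [pow_add L K 3]; field_simp; ring
    rw [e, div_le_iff₀ (by positivity)]
    have h7 : 40 * (2 : ℝ) ^ (K + 3) ≤ L ^ 2 := by nlinarith
    calc 8 * 2 ^ (K + 3) * (N : ℝ) ≤ 8 * 2 ^ (K + 3) * (5 * (Δ * L ^ K)) :=
          mul_le_mul_of_nonneg_left hΔ (by positivity)
      _ = (40 * 2 ^ (K + 3)) * (Δ * L ^ K) := by ring
      _ ≤ L ^ 2 * (Δ * L ^ K) := mul_le_mul_of_nonneg_right h7 (by positivity)
      _ = _ := by ring
  have g4 : (Vz z)⁻¹ * (2 * ER + 2 * √(A : ℝ) * Real.log A) ≤ Δ / 2 := by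
    calc (Vz z)⁻¹ * (2 * ER + 2 * √(A : ℝ) * Real.log A) ≤ L * (Δ / (4 * L) + Δ / (4 * L)) := by
          apply mul_le_mul hVz (by linarith) (by positivity) hL0.le
      _ = Δ / 2 := by field_simp; ring
  have g5 : (Δ : ℝ) / 2 ≤ (Vz z)⁻¹ * (SA - SB - 2 * √(A : ℝ) * Real.log A) := by
    have h7 : (Vz z)⁻¹ * (Δ * Pr - 2 * ER - 2 * √(A : ℝ) * Real.log A) ≤
        (Vz z)⁻¹ * (SA - SB - 2 * √(A : ℝ) * Real.log A) := by
      apply mul_le_mul_of_nonneg_left _ hVz0.le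
      linarith
    refine le_trans ?_ h7
    have h8 : (Vz z)⁻¹ * (Δ * Pr - 2 * ER - 2 * √(A : ℝ) * Real.log A) =
        Δ * ((Vz z)⁻¹ * Pr) - (Vz z)⁻¹ * (2 * ER + 2 * √(A : ℝ) * Real.log A) := by
      ring
    rw [h8]
    have h9 : (Δ : ℝ) * 1 ≤ Δ * ((Vz z)⁻¹ * Pr) := mul_le_mul_of_nonneg_left hTz hD0.le
    linarith
  calc (Δ : ℝ) / (2 * L) = (Δ / 2) / L := by field_simp
    _ ≤ ((Vz z)⁻¹ * (SA - SB - 2 * √(A : ℝ) * Real.log A)) / L :=
        div_le_div_of_nonneg_right g5 hL0.le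
    _ = _ := by ring

/-- from the weighted sum to the number of representations -/
lemma count_lowL (n lo A N : ℕ) (hlo : 1 ≤ lo) (hAn : 2 * A < n) (hnN : n ≤ N) (L : ℝ) (hL : L = Real.log N)
    (hL0 : 0 < L) :
    ∑ a ∈ Icc 1 N, wl lo A N a * lamI ((n : ℤ) - a) ≤
      L * ((Icc lo A).filter (fun p => p.Prime ∧ (n - 2 * p).Prime)).card + 2 * √(N : ℝ) * L := by
  classical
  have hN1 : 1 ≤ N := by omega
  have hAN : A ≤ N := by omega
  have e0 : ∑ a ∈ Icc 1 N, wl lo A N a * lamI ((n : ℤ) - a) =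
      ∑ a ∈ Icc 1 A, wt lo A N a * vonMangoldt (n - 2 * a) := by
    rw [wl_sum lo A N hlo (by omega) (fun b => lamI ((n : ℤ) - b))]
    apply sum_congr rfl
    intro a ha
    rw [mem_Icc] at ha
    have h1 : (1 : ℤ) ≤ (n : ℤ) - ((2 * a : ℕ) : ℤ) := by push_cast; omega
    have h2 : ((n : ℤ) - ((2 * a : ℕ) : ℤ)).toNat = n - 2 * a := by push_cast; omega
    unfold lamI
    rw [if_pos h1, h2]
  rw [e0]
  have e1 : ∀ a ∈ Icc 1 A, wt lo A N a * vonMangoldt (n - 2 * a) ≤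
      (if lo ≤ a ∧ (a.Prime ∧ (n - 2 * a).Prime) then L else 0) + (vonMangoldt (n - 2 * a) - lp (n - 2 * a)) := by
    intro a ha
    rw [mem_Icc] at ha
    have hw0 := wt_nonneg lo A N a (by rw [← hL]; exact hL0.le)
    have hw1 := wt_le lo A N a (by rw [← hL]; exact hL0) hAN
    have hd : 0 ≤ vonMangoldt (n - 2 * a) - lp (n - 2 * a) := by linarith [lp_le (n - 2 * a)]
    have h1 : wt lo A N a * vonMangoldt (n - 2 * a) = wt lo A N a * lp (n - 2 * a) +
        wt lo A N a * (vonMangoldt (n - 2 * a) - lp (n - 2 * a)) := by ring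
    rw [h1]
    apply add_le_add
    · by_cases hc : lo ≤ a ∧ (a.Prime ∧ (n - 2 * a).Prime)
      · rw [if_pos hc]
        calc wt lo A N a * lp (n - 2 * a) ≤ 1 * L := by
              apply mul_le_mul hw1 _ (lp_nonneg _) zero_le_one
              refine (lp_log _ (by omega)).trans ?_
              rw [hL]
              apply Real.log_le_log
              · exact_mod_cast (by omega : 0 < n - 2 * a)
              · exact_mod_cast (by omega : n - 2 * a ≤ N)
          _ = L := one_mul _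
      · rw [if_neg hc]
        apply le_of_eq
        by_cases h2 : lo ≤ a
        · by_cases h3 : a.Prime
          · have h4 : ¬ (n - 2 * a).Prime := fun h4 => hc ⟨h2, h3, h4⟩
            unfold Pool.Agent.H560R3.GB.lp
            rw [if_neg h4, mul_zero]
          · unfold wt Pool.Agent.H560R3.GB.lp
            rw [if_neg h3]
            split_ifs <;> simp
        · unfold wt
          rw [if_neg (fun h => h2 h.1), zero_mul]
    · calc wt lo A N a * (vonMangoldt (n - 2 * a) - lp (n - 2 * a)) ≤ 1 * (vonMangoldt (n - 2 * a) - lp (n - 2 * a)) :=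
            mul_le_mul_of_nonneg_right hw1 hd
        _ = _ := one_mul _
  refine (sum_le_sum e1).trans ?_
  rw [sum_add_distrib]
  apply add_le_add
  · rw [← sum_filter, sum_const, nsmul_eq_mul, mul_comm]
    apply mul_le_mul_of_nonneg_left _ hL0.le
    have : (Icc 1 A).filter (fun a => lo ≤ a ∧ (a.Prime ∧ (n - 2 * a).Prime)) ⊆
        (Icc lo A).filter (fun p => p.Prime ∧ (n - 2 * p).Prime) := by
      intro a ha
      rw [mem_filter, mem_Icc] at ha ⊢
      exact ⟨⟨ha.2.1, ha.1.2⟩, ha.2.2⟩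
    exact_mod_cast card_le_card this
  · have h1 := sum_pp N hN1
    rw [← hL] at h1
    refine le_trans ?_ h1
    have h2 : ∑ a ∈ Icc 1 A, (vonMangoldt (n - 2 * a) - lp (n - 2 * a)) =
        ∑ b ∈ (Icc 1 A).image (fun a => n - 2 * a), (vonMangoldt b - lp b) := by
      rw [sum_image]
      intro a ha b hb hab
      have ha := mem_Icc.1 (mem_coe.1 ha)
      have hb := mem_Icc.1 (mem_coe.1 hb)
      simp only at hab
      omega
    rw [h2]
    apply sum_le_sum_of_subset_of_nonneg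
    · intro b hb
      rw [mem_image] at hb
      obtain ⟨a, ha, rfl⟩ := hb
      rw [mem_range]
      omega
    · intro a _ _
      linarith [lp_le a]


/-- For almost all members `n` of a family of odd numbers of nearly minimal energy, every interval
of length `N / (log N)^K` inside `[1, n / 2)` contains many primes `q` with `n - 2q` prime. -/
theorem gridL (h C U K : ℕ) : ∃ N₀ : ℕ, ∀ N : ℕ, N₀ ≤ N → ∀ (x : ℕ) (s : ℕ → ℕ),
      (∀ m ∈ Icc 1 x, ¬ 2 ∣ s m ∧ 1 ≤ s m ∧ s m ≤ N) →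
      (Pool.Agent.H373R2.T7.energy h x (fun m => (s m : ℤ)) : ℝ) * N ≤ Real.log N ^ C * (x : ℝ) ^ (2 * h) →
      ∃ S : Finset ℕ, (S.card : ℝ) ≤ x / Real.log N ^ U ∧ ∀ m ∈ Icc 1 x, m ∉ S →
        ∀ B A : ℕ, B ≤ A → 2 * A < s m → (N : ℝ) / Real.log N ^ K ≤ (A : ℝ) - B →
        (N : ℝ) / (20 * Real.log N ^ (K + 2)) ≤
          ((Icc (B + 1) A).filter (fun p => p.Prime ∧ (s m - 2 * p).Prime)).card := by
  classical
  obtain ⟨B0, hB0⟩ := gold_w h C ((K + 3) + (U + K + 1))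
  set B1 : ℕ := max B0 3 with hB1
  obtain ⟨n1, h1⟩ := hB0 (B1 + 1)
  obtain ⟨n2, h2⟩ := member_intL (B1 + 1) K
  obtain ⟨n3, h3⟩ := ev_L' 40
  obtain ⟨n4, h4⟩ := ev_log' (K + 2) 80
  refine ⟨n1 + n2 + n3 + n4 + 3, fun N hN x s hs hE => ?_⟩
  have hL40 := h3 N (by omega)
  have hL5 := h4 N (by omega)
  have hN3 : (3 : ℝ) ≤ N := by exact_mod_cast (by omega : 3 ≤ N)
  have hN0 : (0 : ℝ) < N := by linarith
  set L := Real.log (N : ℝ) with hLd
  have hL1 : 1 ≤ L := by linarith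
  have hL0 : 0 < L := by linarith
  have hs0 : 0 < √(N : ℝ) := Real.sqrt_pos.2 hN0
  have hss : √(N : ℝ) * √(N : ℝ) = N := Real.mul_self_sqrt hN0.le
  have hsN : 1 ≤ √(N : ℝ) := by
    rw [Real.one_le_sqrt]; linarith
  have hLK0 : 0 < L ^ K := by positivity
  have hLK1 : 1 ≤ L ^ K := one_le_pow₀ hL1
  obtain ⟨z, hz⟩ : ∃ z, z = ⌈L ^ B1⌉₊ := ⟨_, rfl⟩
  have hz1 : L ^ B1 ≤ z := by rw [hz]; exact Nat.le_ceil _
  have hz2 : (z : ℝ) ≤ L ^ (B1 + 1) := by
    have h5 : (z : ℝ) < L ^ B1 + 1 := by rw [hz]; exact Nat.ceil_lt_add_one (by positivity)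
    have h6 : 1 ≤ L ^ B1 := one_le_pow₀ hL1
    calc (z : ℝ) ≤ L ^ B1 + 1 := h5.le
      _ ≤ L ^ B1 * 2 := by linarith
      _ ≤ L ^ B1 * L := mul_le_mul_of_nonneg_left (by linarith) (by positivity)
      _ = L ^ (B1 + 1) := by rw [pow_succ]
  have hzB0 : L ^ B0 ≤ z := (pow_le_pow_right₀ hL1 (le_max_left _ _)).trans hz1
  have hz22 : L ^ 3 ≤ z := (pow_le_pow_right₀ hL1 (le_max_right _ _)).trans hz1
  -- the grid
  obtain ⟨Δ, hΔd⟩ : ∃ Δ, Δ = ⌊(N : ℝ) / (4 * L ^ K)⌋₊ := ⟨_, rfl⟩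
  have hΔ1 : (Δ : ℝ) ≤ N / (4 * L ^ K) := by rw [hΔd]; exact Nat.floor_le (by positivity)
  have hΔ2 : (N : ℝ) / (4 * L ^ K) < Δ + 1 := by rw [hΔd]; exact Nat.lt_floor_add_one _
  have hbig : 80 * L ^ (K + 2) * √(N : ℝ) ≤ N := by
    calc 80 * L ^ (K + 2) * √(N : ℝ) ≤ √(N : ℝ) * √(N : ℝ) := mul_le_mul_of_nonneg_right hL5 hs0.le
      _ = (N : ℝ) := hss
  have hLK2 : L ^ (K + 2) = L ^ K * L ^ 2 := pow_add _ _ _
  have hLsq : 1 ≤ L ^ 2 := one_le_pow₀ hL1
  have hbig2 : 20 * L ^ K ≤ N := by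
    refine le_trans ?_ hbig
    rw [hLK2]
    have q1 : L ^ K ≤ L ^ K * L ^ 2 := le_mul_of_one_le_right hLK0.le hLsq
    have q2 : L ^ K * L ^ 2 ≤ L ^ K * L ^ 2 * √(N : ℝ) := le_mul_of_one_le_right (by positivity) hsN
    nlinarith
  have hΔ3 : (N : ℝ) ≤ 5 * (Δ * L ^ K) := by
    rw [div_lt_iff₀ (by positivity)] at hΔ2
    nlinarith
  have hΔ0 : (0 : ℝ) < Δ := by
    by_contra hcon
    have : (Δ : ℝ) * L ^ K ≤ 0 := mul_nonpos_of_nonpos_of_nonneg (not_lt.1 hcon) hLK0.le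
    linarith
  have hΔ0' : 0 < Δ := by exact_mod_cast hΔ0
  obtain ⟨J, hJd⟩ : ∃ J, J = ⌈5 * L ^ K⌉₊ := ⟨_, rfl⟩
  have hJ1 : 5 * L ^ K ≤ J := by rw [hJd]; exact Nat.le_ceil _
  have hJ2 : (J : ℝ) ≤ 6 * L ^ K := by
    have h5 : (J : ℝ) < 5 * L ^ K + 1 := by rw [hJd]; exact Nat.ceil_lt_add_one (by positivity)
    linarith
  set w : ℕ → ℕ → ℝ := fun i a => if (i + 1) * Δ ≤ N then wl (i * Δ + 1) ((i + 1) * Δ) N a else 0 with hw
  have hw1 : ∀ i a, |w i a| ≤ 1 := by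
    intro i a
    rw [hw]
    simp only
    split_ifs with hc
    · rw [abs_of_nonneg (wl_nonneg _ _ N a hL0.le)]
      exact wl_le _ _ N a hL0 hc
    · simp
  have hmom := fun i => h1 N (by omega) x s (fun m hm => (hs m hm).2) hE z hzB0 hz2 (w i) (hw1 i)
  set τ : ℝ := N / L ^ (K + 3) with hτ
  have hτ0 : 0 < τ := by positivity
  set D : ℕ → ℕ → ℝ := fun i m => ∑ a ∈ Icc 1 N, w i a * (lamI ((s m : ℤ) - a) - lamzI z ((s m : ℤ) - a)) with hD
  set Si : ℕ → Finset ℕ := fun i => (Icc 1 x).filter (fun m => τ < |D i m|) with hSi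
  have hcard : ∀ i, ((Si i).card : ℝ) ≤ x / L ^ (U + K + 1) := by
    intro i
    have h5 : ((Si i).card : ℝ) * τ ≤ ∑ m ∈ Icc 1 x, |D i m| := by
      calc ((Si i).card : ℝ) * τ = ∑ _m ∈ Si i, τ := by rw [sum_const, nsmul_eq_mul]
        _ ≤ ∑ m ∈ Si i, |D i m| := sum_le_sum fun m hm => (mem_filter.1 hm).2.le
        _ ≤ _ := sum_le_sum_of_subset_of_nonneg (filter_subset _ _) fun _ _ _ => abs_nonneg _
    have h6 := h5.trans (hmom i)
    rw [← le_div_iff₀ hτ0] at h6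
    refine h6.trans (le_of_eq ?_)
    rw [hτ, pow_add L (K + 3) (U + K + 1)]
    field_simp
  refine ⟨(range J).biUnion Si, ?_, ?_⟩
  · have h5 : (((range J).biUnion Si).card : ℝ) ≤ ∑ i ∈ range J, ((Si i).card : ℝ) := by
      exact_mod_cast card_biUnion_le
    refine h5.trans ((sum_le_sum fun i _ => hcard i).trans ?_)
    rw [sum_const, card_range, nsmul_eq_mul]
    have hxr : (0 : ℝ) ≤ x := Nat.cast_nonneg _
    calc (J : ℝ) * (x / L ^ (U + K + 1)) ≤ (6 * L ^ K) * (x / L ^ (U + K + 1)) :=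
          mul_le_mul_of_nonneg_right hJ2 (by positivity)
      _ = (6 / L) * (x / L ^ U) := by
          rw [pow_succ, pow_add]; field_simp
      _ ≤ 1 * (x / L ^ U) := by
          apply mul_le_mul_of_nonneg_right _ (by positivity)
          rw [div_le_one hL0]
          linarith
      _ = _ := one_mul _
  · intro m hm hmS B A hBA hAm hAB
    obtain ⟨hev, hm1, hmN⟩ := hs m hm
    -- the grid interval
    set i := B / Δ + 1 with hi
    have hdm := Nat.div_add_mod B Δ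
    have hmod := Nat.mod_lt B hΔ0'
    have hiB : B + 1 ≤ i * Δ + 1 := by
      rw [hi, add_mul, one_mul]
      have : B / Δ * Δ = Δ * (B / Δ) := mul_comm _ _
      omega
    have hiA : (i + 1) * Δ ≤ A := by
      have h5 : 2 * (Δ : ℝ) ≤ (A : ℝ) - B := by
        refine le_trans ?_ hAB
        calc 2 * (Δ : ℝ) ≤ 2 * (N / (4 * L ^ K)) := by linarith
          _ = (N / L ^ K) / 2 := by field_simp; ring
          _ ≤ N / L ^ K := half_le_self (by positivity)
      have h6 : (B : ℝ) + 2 * Δ ≤ A := by linarith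
      have h7 : B + 2 * Δ ≤ A := by exact_mod_cast h6
      have h8 : (i + 1) * Δ = Δ * (B / Δ) + 2 * Δ := by rw [hi]; ring
      rw [h8]
      omega
    have hiN : (i + 1) * Δ ≤ N := by omega
    have hiJ : i < J := by
      have h5 : ((i : ℝ) + 1) * Δ ≤ N := by exact_mod_cast hiN
      have h6 : ((i : ℝ) + 1) * Δ ≤ (5 * L ^ K) * Δ := by linarith
      have h7 := le_of_mul_le_mul_right h6 hΔ0
      have h8 : (i : ℝ) < J := by linarith
      exact_mod_cast h8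
    have hmi : m ∉ Si i := fun hc => hmS (mem_biUnion.2 ⟨i, mem_range.2 hiJ, hc⟩)
    have h6 : |D i m| ≤ τ := by
      by_contra hcon
      exact hmi (mem_filter.2 ⟨hm, lt_of_not_ge hcon⟩)
    have hwi : w i = wl (i * Δ + 1) ((i + 1) * Δ) N := by
      funext a
      rw [hw]
      simp only
      rw [if_pos hiN]
    have h7 := h2 N (by omega) (s m) z i Δ hev (by omega) hmN hΔ3 hz22 hz2
    have h8 := count_lowL (s m) (i * Δ + 1) ((i + 1) * Δ) N (by omega) (by omega) hmN L hLd hL0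
    have h9 : D i m = ∑ a ∈ Icc 1 N, wl (i * Δ + 1) ((i + 1) * Δ) N a * lamI ((s m : ℤ) - a) -
        ∑ a ∈ Icc 1 N, wl (i * Δ + 1) ((i + 1) * Δ) N a * lamzI z ((s m : ℤ) - a) := by
      rw [hD]
      simp only
      rw [hwi, ← sum_sub_distrib]
      apply sum_congr rfl
      intro a _
      ring
    have h10 := (abs_le.1 h6).1
    set c : ℝ := (((Icc (i * Δ + 1) ((i + 1) * Δ)).filter (fun p => p.Prime ∧ (s m - 2 * p).Prime)).card : ℝ) with hc
    have h11 : (Δ : ℝ) / (2 * L) - τ - 2 * √(N : ℝ) * L ≤ L * c := by linarith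
    have k1 : τ ≤ Δ / (8 * L) := by
      rw [hτ, div_le_div_iff₀ (by positivity) (by positivity)]
      calc (N : ℝ) * (8 * L) ≤ (5 * (Δ * L ^ K)) * (8 * L) :=
            mul_le_mul_of_nonneg_right hΔ3 (by positivity)
        _ = (Δ * L ^ K) * L * 40 := by ring
        _ ≤ (Δ * L ^ K) * L * (L * L) := by
            apply mul_le_mul_of_nonneg_left _ (by positivity)
            nlinarith
        _ = Δ * L ^ (K + 3) := by rw [pow_add]; ring
    have k2 : 2 * √(N : ℝ) * L ≤ Δ / (8 * L) := by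
      rw [le_div_iff₀ (by positivity)]
      have h13 : (16 * √(N : ℝ) * L ^ 2) * (5 * L ^ K) ≤ Δ * (5 * L ^ K) := by
        calc (16 * √(N : ℝ) * L ^ 2) * (5 * L ^ K) = 80 * L ^ (K + 2) * √(N : ℝ) := by
              rw [hLK2]; ring
          _ ≤ (N : ℝ) := hbig
          _ ≤ 5 * (Δ * L ^ K) := hΔ3
          _ = _ := by ring
      have h14 := le_of_mul_le_mul_right h13 (by positivity)
      calc 2 * √(N : ℝ) * L * (8 * L) = 16 * √(N : ℝ) * L ^ 2 := by ring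
        _ ≤ Δ := h14
    have k3 : (Δ : ℝ) / (4 * L) ≤ L * c := by
      have h15 : (Δ : ℝ) / (4 * L) = Δ / (2 * L) - Δ / (8 * L) - Δ / (8 * L) := by
        field_simp; ring
      linarith
    have k4 : c ≤ ((Icc (B + 1) A).filter (fun p => p.Prime ∧ (s m - 2 * p).Prime)).card := by
      rw [hc]
      exact_mod_cast card_le_card (filter_subset_filter _ (Icc_subset_Icc hiB hiA))
    refine le_trans ?_ k4
    rw [div_le_iff₀ (by positivity)] at k3 ⊢
    calc (N : ℝ) ≤ 5 * (Δ * L ^ K) := hΔ3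
      _ ≤ 5 * ((L * c * (4 * L)) * L ^ K) := by
          apply mul_le_mul_of_nonneg_left _ (by norm_num)
          exact mul_le_mul_of_nonneg_right k3 hLK0.le
      _ = c * (20 * L ^ (K + 2)) := by rw [hLK2]; ring

end Pool.Agent.H13R3.PI
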