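import Mathlib
import Pool.Agent.H13R3.PI.Lem
import Pool.Agent.H13R3.PI.Fin33

set_option autoImplicit false
set_option maxHeartbeats 4000000

/-! Representations `n = p + 2q`, almost all members. -/

namespace Pool.Agent.H13R3.PI

open Finset Pool.Agent.H373R2.T7 Pool.Agent.H560R3.GB

theorem final66 (h C U K : ℕ) (hh : 1 ≤ h) : ∃ N₀ : ℕ, ∀ N : ℕ, N₀ ≤ N → ∀ (x : ℕ) (s : ℕ → ℕ),
      (∀ m ∈ Icc 1 x, ¬ 2 ∣ s m ∧ 1 ≤ s m ∧ s m ≤ N) →
      (Pool.Agent.H373R2.T7.energy h x (fun m => (s m : ℤ)) : ℝ) * N ≤ Real.log N ^ C * (x : ℝ) ^ (2 * h) →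
      ∃ S : Finset ℕ, (S.card : ℝ) ≤ x / Real.log N ^ U ∧ ∀ m ∈ Icc 1 x, m ∉ S →
        (∀ B A : ℕ, B ≤ A → 2 * A < s m → (N : ℝ) / Real.log N ^ K ≤ (A : ℝ) - B →
          (N : ℝ) / (20 * Real.log N ^ (K + 2)) ≤
            ((Icc (B + 1) A).filter (fun p => p.Prime ∧ (s m - 2 * p).Prime)).card) ∧
        ∃ p q : ℕ, p.Prime ∧ q.Prime ∧ s m = p + 2 * q := by
  classical
  set K' : ℕ := C + 2 * h * (U + 2) + 1 with hK'
  obtain ⟨n1, h1⟩ := gridL h C (U + 2) K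
  obtain ⟨n2, h2⟩ := gridL h C (U + 2) (K' + 1)
  obtain ⟨n3, h3⟩ := few h C (U + 2) hh
  obtain ⟨n4, h4⟩ := ev_L' 8
  obtain ⟨n5, h5⟩ := ev_log' K' 64
  refine ⟨n1 + n2 + n3 + n4 + n5 + 3, fun N hN x s hs hE => ?_⟩
  obtain ⟨S1, a1, b1⟩ := h1 N (by omega) x s hs hE
  obtain ⟨S2, a2, b2⟩ := h2 N (by omega) x s hs hE
  have a3 := h3 N (by omega) x s hE
  have hL8 := h4 N (by omega)
  have hLs := h5 N (by omega)
  set L := Real.log (N : ℝ) with hLd
  have hN3 : (3 : ℝ) ≤ N := by exact_mod_cast (by omega : 3 ≤ N)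
  have hN0 : (0 : ℝ) < N := by linarith
  have hL0 : 0 < L := by linarith
  have hL1 : 1 ≤ L := by linarith
  set S3 : Finset ℕ := (Icc 1 x).filter (fun m => s m ≤ ⌊(N : ℝ) / L ^ K'⌋₊) with hS3
  have hxr : (0 : ℝ) ≤ x := Nat.cast_nonneg _
  refine ⟨S1 ∪ S2 ∪ S3, ?_, fun m hm hmS => ?_⟩
  · have q1 : ((S1 ∪ S2 ∪ S3).card : ℝ) ≤ (S1.card + S2.card) + S3.card := by
      exact_mod_cast (card_union_le _ _).trans (Nat.add_le_add_right (card_union_le _ _) _)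
    refine q1.trans ?_
    calc ((S1.card : ℝ) + S2.card) + S3.card ≤ 3 * (x / L ^ (U + 2)) := by linarith
      _ = (3 / L ^ 2) * (x / L ^ U) := by rw [pow_add]; field_simp
      _ ≤ 1 * (x / L ^ U) := by
          apply mul_le_mul_of_nonneg_right _ (by positivity)
          rw [div_le_one (by positivity)]
          nlinarith
      _ = _ := one_mul _
  · rw [mem_union, mem_union, not_or, not_or] at hmS
    obtain ⟨⟨c1, c2⟩, c3⟩ := hmS
    refine ⟨b1 m hm c1, ?_⟩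
    obtain ⟨hev, hm1, hmN⟩ := hs m hm
    set n := s m with hn
    have hnb : (N : ℝ) / L ^ K' < n := by
      have : ⌊(N : ℝ) / L ^ K'⌋₊ < n := by
        by_contra hcon
        exact c3 (mem_filter.2 ⟨hm, not_lt.1 hcon⟩)
      exact Nat.lt_of_floor_lt this
    have hs0 : 0 < √(N : ℝ) := Real.sqrt_pos.2 hN0
    have hss : √(N : ℝ) * √(N : ℝ) = N := Real.mul_self_sqrt hN0.le
    have hLK' : 0 < L ^ K' := by positivity
    have hnbig : 64 * √(N : ℝ) < n := by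
      refine lt_of_le_of_lt ?_ hnb
      rw [le_div_iff₀ hLK']
      calc 64 * √(N : ℝ) * L ^ K' = (64 * L ^ K') * √(N : ℝ) := by ring
        _ ≤ √(N : ℝ) * √(N : ℝ) := mul_le_mul_of_nonneg_right hLs hs0.le
        _ = N := hss
    have hsN1 : 1 ≤ √(N : ℝ) := by
      rw [Real.one_le_sqrt]; linarith
    have hn64 : (64 : ℝ) < n := by linarith
    have hn64' : 64 < n := by exact_mod_cast hn64
    set A := (n - 1) / 2 with hA
    have hAr : (n : ℝ) / 2 - 1 ≤ A := by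
      have q1 : n ≤ 2 * A + 2 := by omega
      have q2 : (n : ℝ) ≤ 2 * A + 2 := by exact_mod_cast q1
      linarith
    have hAB : (n : ℝ) / 8 ≤ (A : ℝ) - ((0 : ℕ) : ℝ) := by push_cast; linarith
    have hlen : (N : ℝ) / L ^ (K' + 1) ≤ (A : ℝ) - ((0 : ℕ) : ℝ) := by
      refine le_trans ?_ hAB
      rw [pow_succ, ← div_div]
      calc (N : ℝ) / L ^ K' / L ≤ n / L := div_le_div_of_nonneg_right hnb.le hL0.le
        _ ≤ n / 8 := div_le_div_of_nonneg_left (by linarith) (by norm_num) hL8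
    have hcnt := b2 m hm c2 0 A (Nat.zero_le _) (by omega) hlen
    have hpos : 0 < ((Icc (0 + 1) A).filter (fun p => p.Prime ∧ (n - 2 * p).Prime)).card := by
      have : (0 : ℝ) < (((Icc (0 + 1) A).filter (fun p => p.Prime ∧ (n - 2 * p).Prime)).card : ℝ) :=
        lt_of_lt_of_le (by positivity) hcnt
      exact_mod_cast this
    obtain ⟨p, hp⟩ := card_pos.1 hpos
    rw [mem_filter, mem_Icc] at hp
    exact ⟨n - 2 * p, p, hp.2.2, hp.2.1, by omega⟩

end Pool.Agent.H13R3.PI
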