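import Mathlib
import Pool.Agent.H13R3.PI.Engine2
import Pool.Agent.H13R3.PI.Prim

set_option autoImplicit false
set_option maxHeartbeats 4000000

/-! Goldbach representations in the primorial intervals for almost all members of a family of
nearly minimal energy. -/

namespace Pool.Agent.H13R3.PI

open Finset

theorem main (h C U : ℕ) : ∃ n₀ : ℕ, ∀ k : ℕ, n₀ ≤ k → ∀ (x : ℕ) (s : ℕ → ℕ),
      (∀ m ∈ Icc 1 x, Even (s m) ∧ prim (k + 1) + 1 ≤ s m ∧ s m ≤ prim (k + 2) + 1) →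
      (Pool.Agent.H373R2.T7.energy h x (fun m => (s m : ℤ)) : ℝ) * prim (k + 2) ≤
        Real.log (prim (k + 2)) ^ C * (x : ℝ) ^ (2 * h) →
      ∃ S : Finset ℕ, (S.card : ℝ) ≤ x / Real.log (prim (k + 2)) ^ U ∧ ∀ m ∈ Icc 1 x, m ∉ S →
        (prim (k + 1) : ℝ) / (10 * Real.log (prim (k + 2)) ^ 2) ≤
          ((Icc (prim k + 1) (prim (k + 1) / 2)).filter (fun p => p.Prime ∧ (s m - p).Prime)).card := by
  obtain ⟨N0, hN0⟩ := engine h (C + 1) U
  obtain ⟨n1, h1⟩ := log_prim_ge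
  refine ⟨N0 + n1 + 40, fun k hk x s hs hE => ?_⟩
  set P := Nat.nth Nat.Prime (k + 1) with hP
  set R := Nat.nth Nat.Prime k with hR
  have hPR : P ≤ 2 * R := bertrand k
  have hQ : prim (k + 2) = prim (k + 1) * P := prim_succ (k + 1)
  have hA' : prim (k + 1) = prim k * R := prim_succ k
  have hev : Even (prim (k + 1)) := prim_even k
  have hk1 : k + 1 ≤ P := (Nat.nth_strictMono Nat.infinite_setOfPred_prime).le_apply
  have hR1 : 1 ≤ R := (nthp k).pos
  set Q := prim (k + 2) with hQd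
  set a := prim (k + 1) with had
  have hQpos : 0 < Q := prim_pos _
  have hapos : 0 < a := prim_pos _
  have hkpos : 0 < prim k := prim_pos _
  set M := Real.log (Q : ℝ) with hM
  have hM1 : (P : ℝ) ≤ 2 * M := h1 (k + 1) (by omega)
  have hM2 : M ≤ 1.4 * P := log_prim_le (k + 1)
  have hP41 : (41 : ℝ) ≤ P := by exact_mod_cast (by omega : 41 ≤ P)
  have hM20 : (20 : ℝ) ≤ M := by linarith
  have hQr : (1 : ℝ) ≤ Q := by exact_mod_cast hQpos
  have hQr0 : (0 : ℝ) < Q := by linarith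
  have har : (1 : ℝ) ≤ a := by exact_mod_cast hapos
  have hkr : (1 : ℝ) ≤ prim k := by exact_mod_cast hkpos
  have hRr : (1 : ℝ) ≤ R := by exact_mod_cast hR1
  have hPRr : (P : ℝ) ≤ 2 * R := by exact_mod_cast hPR
  have hNcast : ((Q + 1 : ℕ) : ℝ) = Q + 1 := by push_cast; ring
  set L := Real.log ((Q + 1 : ℕ) : ℝ) with hL
  have hML : M ≤ L := by
    rw [hL, hM, hNcast]
    exact Real.log_le_log hQr0 (by linarith)
  have hLM : L ≤ M + 1 := by
    rw [hL, hM, hNcast]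
    calc Real.log ((Q : ℝ) + 1) ≤ Real.log (2 * Q) := Real.log_le_log (by linarith) (by linarith)
      _ = Real.log 2 + Real.log Q := Real.log_mul (by norm_num) (by linarith)
      _ ≤ Real.log Q + 1 := by linarith [Real.log_two_lt_d9]
  have hL0 : 0 < L := by linarith
  have hM0 : 0 < M := by linarith
  have hAc : ((a / 2 : ℕ) : ℝ) = a / 2 := by
    rw [Nat.cast_div hev.two_dvd (by norm_num)]
    norm_num
  have hQa : (Q : ℝ) = a * P := by rw [hQ]; push_cast; ring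
  have haR : (a : ℝ) = prim k * R := by rw [hA']; push_cast; ring
  have hNbig : N0 ≤ Q + 1 := by
    have := prim_two_pow (k + 2)
    have h2 : k + 2 < 2 ^ (k + 2) := Nat.lt_two_pow_self
    omega
  have c1 : ((Q + 1 : ℕ) : ℝ) ≤ ((a / 2 : ℕ) : ℝ) * L ^ 2 := by
    rw [hNcast, hAc, hQa]
    have h2 : (a : ℝ) * P + 1 ≤ a * (P + 1) := by nlinarith
    have h3 : 2 * ((P : ℝ) + 1) ≤ L ^ 2 := by nlinarith
    calc (a : ℝ) * P + 1 ≤ a * (P + 1) := h2
      _ = a / 2 * (2 * (P + 1)) := by ring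
      _ ≤ a / 2 * L ^ 2 := mul_le_mul_of_nonneg_left h3 (by positivity)
  have c2 : ((prim k + 1 : ℕ) : ℝ) * L ≤ 16 * ((a / 2 : ℕ) : ℝ) := by
    rw [hAc]
    push_cast
    have h2 : L ≤ 4 * R := by linarith
    calc ((prim k : ℝ) + 1) * L ≤ (2 * prim k) * (4 * R) := by
          apply mul_le_mul (by linarith) h2 hL0.le (by positivity)
      _ = 16 * (a / 2) := by rw [haR]; ring
  have hEn0 : (0 : ℝ) ≤ (Pool.Agent.H373R2.T7.energy h x (fun m => (s m : ℤ)) : ℝ) := Nat.cast_nonneg _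
  obtain ⟨S, hS1, hS2⟩ := hN0 (Q + 1) hNbig (prim k + 1) (a / 2) c1 c2 x s
    (fun m hm => by
      obtain ⟨g1, g2, g3⟩ := hs m hm
      exact ⟨g1, by omega, g3⟩)
    (by
      rw [← hL]
      have h2 : (Pool.Agent.H373R2.T7.energy h x (fun m => (s m : ℤ)) : ℝ) * ((Q + 1 : ℕ) : ℝ) ≤
          2 * ((Pool.Agent.H373R2.T7.energy h x (fun m => (s m : ℤ)) : ℝ) * Q) := by
        rw [hNcast]
        nlinarith
      have h3 : M ^ C ≤ L ^ C := pow_le_pow_left₀ hM0.le hML C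
      have hx0 : (0 : ℝ) ≤ (x : ℝ) ^ (2 * h) := by positivity
      calc (Pool.Agent.H373R2.T7.energy h x (fun m => (s m : ℤ)) : ℝ) * ((Q + 1 : ℕ) : ℝ) ≤
            2 * ((Pool.Agent.H373R2.T7.energy h x (fun m => (s m : ℤ)) : ℝ) * Q) := h2
        _ ≤ 2 * (M ^ C * (x : ℝ) ^ (2 * h)) := by linarith
        _ ≤ L * (L ^ C * (x : ℝ) ^ (2 * h)) := by
            apply mul_le_mul (by linarith) _ (by positivity) hL0.le
            exact mul_le_mul_of_nonneg_right h3 hx0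
        _ = L ^ (C + 1) * (x : ℝ) ^ (2 * h) := by ring)
  rw [← hL] at hS1 hS2
  refine ⟨S, hS1.trans ?_, fun m hm hmS => ?_⟩
  · apply div_le_div_of_nonneg_left (Nat.cast_nonneg x) (by positivity)
    exact pow_le_pow_left₀ hM0.le hML U
  · refine le_trans ?_ (hS2 m hm hmS)
    rw [hAc, div_le_div_iff₀ (by positivity) (by positivity)]
    have h2 : 8 * L ^ 2 ≤ 10 * M ^ 2 := by nlinarith
    have ha0 : (0 : ℝ) ≤ a := by linarith
    nlinarith

end Pool.Agent.H13R3.PI
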